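import Pool.Agent.U19.TD.Final

/-!
# Equality of the total and the sub-total domination number is NP-complete

The problem asks whether it is `NP`-complete to decide `γ_t(G) = sub_t(G)`. The reduction is from
3SAT. Let `m` be the number of clauses, the variables are the numbers less than `3 m`. The graph has a
centre with `t + m + 1` leaves, where `t = 3 m (m + 1)`, the centre is also adjacent to the `6 m`
literals; for every variable there are `t` vertices of degree `2` adjacent to its two literals, and
every clause is a vertex adjacent to its literals. The sub-total domination number is `3 m + 1`, and a
total dominating set of this size consists of the centre and one literal for every variable.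
-/

set_option autoImplicit false

namespace Pool.Agent.Results.MP_bfbf95_lc.NPComplete

open Pool.Agent.NPC Pool.Agent.NPC.U19.TD

/-- TDS-EQ is in `NP`, it is `NP`-hard under polynomial-time many-one reductions, and a
polynomial-time algorithm which decides it exists if and only if `P = NP`. -/
theorem result :
    InNPP TdsEq ∧ NPHardP TdsEq ∧
    ((∃ A : List Bool → List Bool, PolyTime A ∧
      ∀ I : Inst, IsInst I → (A (bits I) = [true] ↔ gammaT I.1 I.2 = subT I.1 I.2)) ↔
    ∀ L : Set (List Bool), InNP L → InP L) :=
  ⟨inNPP_tdsEq, hard_tdsEq, decidable_iff⟩

end Pool.Agent.Results.MP_bfbf95_lc.NPComplete
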